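import Mathlib

set_option autoImplicit false

open Module Finset
open scoped InnerProductSpace

namespace Pool.Agent.Q93.KS

variable {𝕜 : Type*} [RCLike 𝕜] {E : Type*} [NormedAddCommGroup E] [InnerProductSpace 𝕜 E]
  [FiniteDimensional 𝕜 E]

/-- The singular values of a continuous linear map. -/
noncomputable def sv (T : E →L[𝕜] E) (j : ℕ) : ℝ := (T : E →ₗ[𝕜] E).singularValues j

lemma sv_nonneg (T : E →L[𝕜] E) (j : ℕ) : 0 ≤ sv T j := LinearMap.singularValues_nonneg _ j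

lemma sv_anti (T : E →L[𝕜] E) : Antitone (sv T) := LinearMap.singularValues_antitone _

lemma sv_zero_of_le (T : E →L[𝕜] E) {j : ℕ} (h : finrank 𝕜 E ≤ j) : sv T j = 0 :=
  LinearMap.singularValues_of_finrank_le _ h

/-- An orthonormal sequence of right singular vectors, extended by zero. -/
lemma exists_basis (T : E →L[𝕜] E) : ∃ v : ℕ → E, (∀ i j, i ≠ j → ⟪v i, v j⟫_𝕜 = 0) ∧
    (∀ i < finrank 𝕜 E, ‖v i‖ = 1) ∧ (∀ i, finrank 𝕜 E ≤ i → v i = 0) ∧
    (∀ x, ‖T x‖ ^ 2 = ∑ i ∈ range (finrank 𝕜 E), sv T i ^ 2 * ‖⟪v i, x⟫_𝕜‖ ^ 2) ∧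
    (∀ x, ‖x‖ ^ 2 = ∑ i ∈ range (finrank 𝕜 E), ‖⟪v i, x⟫_𝕜‖ ^ 2) := by
  classical
  set S : E →ₗ[𝕜] E := (T : E →ₗ[𝕜] E) with hS
  set b := S.isSymmetric_adjoint_comp_self.eigenvectorBasis rfl with hb
  refine ⟨fun i => if h : i < finrank 𝕜 E then b ⟨i, h⟩ else 0, ?_, ?_, ?_, ?_, ?_⟩
  · intro i j hij
    by_cases hi : i < finrank 𝕜 E
    · by_cases hj : j < finrank 𝕜 E
      · simp only [hi, hj, dif_pos]
        rw [b.inner_eq_zero]
        intro h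
        exact hij (by simpa using h)
      · simp [hj]
    · simp [hi]
  · intro i hi
    simp [hi]
  · intro i hi
    simp [not_lt.2 hi]
  · intro x
    rw [Finset.sum_range]
    have h1 : ∀ i : Fin (finrank 𝕜 E), ⟪b i, (S.adjoint ∘ₗ S) x⟫_𝕜 = ((sv T i ^ 2 : ℝ) : 𝕜) * ⟪b i, x⟫_𝕜 := by
      intro i
      have h2 := S.isSymmetric_adjoint_comp_self.eigenvectorBasis_apply_self_apply rfl x i
      rw [← hb, b.repr_apply_apply, b.repr_apply_apply] at h2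
      rw [h2, sv, ← hS, LinearMap.sq_singularValues_fin S rfl i]
    have h3 : ((‖T x‖ ^ 2 : ℝ) : 𝕜) = ⟪x, (S.adjoint ∘ₗ S) x⟫_𝕜 := by
      rw [LinearMap.comp_apply, LinearMap.adjoint_inner_right]
      rw [inner_self_eq_norm_sq_to_K]
      push_cast
      rfl
    rw [← b.sum_inner_mul_inner] at h3
    have h4 : ((‖T x‖ ^ 2 : ℝ) : 𝕜) =
        ((∑ i : Fin (finrank 𝕜 E), sv T i ^ 2 * ‖⟪b i, x⟫_𝕜‖ ^ 2 : ℝ) : 𝕜) := by
      rw [h3, RCLike.ofReal_sum]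
      refine Finset.sum_congr rfl fun i _ => ?_
      rw [h1 i]
      have h5 : ⟪x, b i⟫_𝕜 * ⟪b i, x⟫_𝕜 = ((‖⟪b i, x⟫_𝕜‖ : ℝ) : 𝕜) ^ 2 := by
        rw [← inner_conj_symm x (b i), RCLike.conj_mul]
      rw [mul_left_comm, h5, RCLike.ofReal_mul, RCLike.ofReal_pow ‖⟪b i, x⟫_𝕜‖]
    have h6 := RCLike.ofReal_inj.1 h4
    rw [h6]
    refine Finset.sum_congr rfl fun i _ => ?_
    simp
  · intro x
    rw [Finset.sum_range, ← b.sum_sq_norm_inner_right x]
    refine Finset.sum_congr rfl fun i _ => ?_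
    simp

/-- Upper bound of singular values. -/
lemma sv_le_of {F : Type*} [AddCommGroup F] [Module 𝕜 F] (T : E →L[𝕜] E) (φ : E →ₗ[𝕜] F) {j : ℕ}
    {c : ℝ} (hc : 0 ≤ c) (hφ : finrank 𝕜 (LinearMap.range φ) ≤ j)
    (h : ∀ x, φ x = 0 → ‖T x‖ ≤ c * ‖x‖) : sv T j ≤ c := by
  classical
  by_cases hj : j < finrank 𝕜 E
  swap
  · rw [sv_zero_of_le T (not_lt.1 hj)]
    exact hc
  obtain ⟨v, hv1, hv2, hv3, hv4, hv5⟩ := exists_basis T
  let ψ : (Fin (j + 1) → 𝕜) →ₗ[𝕜] E := Fintype.linearCombination 𝕜 (fun i : Fin (j + 1) => v i)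
  have hψ : ∀ a i, ⟪v i, ψ a⟫_𝕜 = if h : i < j + 1 then a ⟨i, h⟩ else 0 := by
    intro a i
    simp only [ψ, Fintype.linearCombination_apply, inner_sum, inner_smul_right]
    split_ifs with hi
    · rw [Finset.sum_eq_single (⟨i, hi⟩ : Fin (j + 1))]
      · rw [inner_self_eq_norm_sq_to_K, hv2 i (by omega)]
        simp
      · intro b _ hb
        rw [hv1 i b (fun hib => hb (Fin.ext hib.symm)), mul_zero]
      · intro hh
        exact absurd (Finset.mem_univ _) hh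
    · refine Finset.sum_eq_zero fun b _ => ?_
      rw [hv1 i b (by omega), mul_zero]
  have hker : ∃ a : Fin (j + 1) → 𝕜, a ≠ 0 ∧ φ (ψ a) = 0 := by
    let χ := φ ∘ₗ ψ
    have h1 : finrank 𝕜 (LinearMap.range χ) ≤ j := by
      refine le_trans (Submodule.finrank_mono ?_) hφ
      exact LinearMap.range_comp_le_range ψ φ
    have h2 := LinearMap.finrank_range_add_finrank_ker χ
    rw [Module.finrank_fin_fun] at h2
    have h3 : 0 < finrank 𝕜 (LinearMap.ker χ) := by omega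
    have : Nontrivial (LinearMap.ker χ) := Module.finrank_pos_iff.1 h3
    obtain ⟨⟨a, ha⟩, hne⟩ := exists_ne (0 : LinearMap.ker χ)
    exact ⟨a, fun h0 => hne (Subtype.ext h0), ha⟩
  obtain ⟨a, ha, hφa⟩ := hker
  set x := ψ a with hx
  have hxn : x ≠ 0 := by
    intro h0
    apply ha
    funext i
    have := hψ a i
    rw [← hx, h0, inner_zero_right, dif_pos i.2] at this
    simpa using this.symm
  have hlow : sv T j * ‖x‖ ≤ ‖T x‖ := by
    have h1 : (sv T j * ‖x‖) ^ 2 ≤ ‖T x‖ ^ 2 := by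
      rw [mul_pow, hv4, hv5, Finset.mul_sum]
      refine Finset.sum_le_sum fun i _ => ?_
      by_cases hi : i < j + 1
      · have := sv_anti T (show i ≤ j by omega)
        have := sv_nonneg T j
        gcongr
      · rw [hψ a i, dif_neg hi]
        simp
    exact le_of_sq_le_sq h1 (norm_nonneg _)
  have h3 := hlow.trans (h x hφa)
  exact le_of_mul_le_mul_right h3 (norm_pos_iff.2 hxn)

lemma sv_le_norm (T : E →L[𝕜] E) (j : ℕ) : sv T j ≤ ‖T‖ := by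
  refine sv_le_of T (0 : E →ₗ[𝕜] E) (norm_nonneg _) ?_ fun x _ => T.le_opNorm x
  rw [LinearMap.range_zero, finrank_bot]
  exact Nat.zero_le _

/-- The projection to the first right singular vectors. -/
noncomputable def proj (v : ℕ → E) (a : ℕ) : E →L[𝕜] E :=
  ∑ i ∈ range a, (innerSL 𝕜 (v i)).smulRight (v i)

lemma proj_apply (v : ℕ → E) (a : ℕ) (x : E) :
    proj (𝕜 := 𝕜) v a x = ∑ i ∈ range a, ⟪v i, x⟫_𝕜 • v i := by
  simp [proj]

/-- On the complement of the first `a` vectors the norm of `T` is at most the singular value. -/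
lemma norm_le_sv (T : E →L[𝕜] E) {v : ℕ → E}
    (hv4 : ∀ x, ‖T x‖ ^ 2 = ∑ i ∈ range (finrank 𝕜 E), sv T i ^ 2 * ‖⟪v i, x⟫_𝕜‖ ^ 2)
    (hv5 : ∀ x, ‖x‖ ^ 2 = ∑ i ∈ range (finrank 𝕜 E), ‖⟪v i, x⟫_𝕜‖ ^ 2)
    {a : ℕ} {x : E} (hx : ∀ i < a, ⟪v i, x⟫_𝕜 = 0) : ‖T x‖ ≤ sv T a * ‖x‖ := by
  have h1 : ‖T x‖ ^ 2 ≤ (sv T a * ‖x‖) ^ 2 := by
    rw [mul_pow, hv4, hv5, Finset.mul_sum]
    refine Finset.sum_le_sum fun i _ => ?_
    by_cases hi : i < a
    · rw [hx i hi]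
      simp
    · have := sv_anti T (show a ≤ i by omega)
      have := sv_nonneg T i
      gcongr
  exact le_of_sq_le_sq h1 (mul_nonneg (sv_nonneg _ _) (norm_nonneg _))

/-- There are `j` functionals such that `T` is small on the intersection of their kernels. -/
lemma exists_small (T : E →L[𝕜] E) (j : ℕ) : ∃ φ : E →ₗ[𝕜] (Fin j → 𝕜),
    ∀ x, φ x = 0 → ‖T x‖ ≤ sv T j * ‖x‖ := by
  obtain ⟨v, hv1, hv2, hv3, hv4, hv5⟩ := exists_basis T
  refine ⟨LinearMap.pi fun i : Fin j => (innerSL 𝕜 (v i) : E →ₗ[𝕜] 𝕜), fun x hx => ?_⟩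
  refine norm_le_sv T hv4 hv5 fun i hi => ?_
  have := congrFun hx ⟨i, hi⟩
  simpa using this

lemma norm_le_sv_zero (T : E →L[𝕜] E) : ‖T‖ ≤ sv T 0 := by
  obtain ⟨φ, h⟩ := exists_small T 0
  exact T.opNorm_le_bound (sv_nonneg _ _) fun x => h x (Subsingleton.elim _ _)

lemma sv_zero (T : E →L[𝕜] E) : sv T 0 = ‖T‖ := le_antisymm (sv_le_norm T 0) (norm_le_sv_zero T)

/-- Perturbation by an operator of rank at most `r`. -/
lemma sv_sub_le (A Z : E →L[𝕜] E) {r : ℕ} (hZ : finrank 𝕜 (LinearMap.range (Z : E →ₗ[𝕜] E)) ≤ r)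
    (j : ℕ) : sv (A - Z) (j + r) ≤ sv A j := by
  obtain ⟨φ, hφ⟩ := exists_small A j
  refine sv_le_of (A - Z) (φ.prod (Z : E →ₗ[𝕜] E)) (sv_nonneg _ _) ?_ fun x hx => ?_
  · have h1 := LinearMap.finrank_range_add_finrank_ker (φ.prod (Z : E →ₗ[𝕜] E))
    have h2 := LinearMap.finrank_range_add_finrank_ker φ
    have h3 := LinearMap.finrank_range_add_finrank_ker (Z : E →ₗ[𝕜] E)
    have h4 := Submodule.finrank_sup_add_finrank_inf_eq (LinearMap.ker φ)
      (LinearMap.ker (Z : E →ₗ[𝕜] E))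
    have h5 := Submodule.finrank_le (LinearMap.ker φ ⊔ LinearMap.ker (Z : E →ₗ[𝕜] E))
    have h6 := Submodule.finrank_le (LinearMap.range φ)
    rw [Module.finrank_fin_fun] at h6
    rw [LinearMap.ker_prod] at h1
    omega
  · have h1 : φ x = 0 := congrArg Prod.fst hx
    have h2 : Z x = 0 := congrArg Prod.snd hx
    rw [sub_apply, h2, sub_zero]
    exact hφ x h1

end Pool.Agent.Q93.KS
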