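import Pool.Agent.Q93.KS.KS1

set_option autoImplicit false
set_option linter.unusedSectionVars false

open Module Finset
open scoped InnerProductSpace

namespace Pool.Agent.Q93.KS

variable {𝕜 : Type*} [RCLike 𝕜] {E : Type*} [NormedAddCommGroup E] [InnerProductSpace 𝕜 E]
  [FiniteDimensional 𝕜 E]

/-- Coordinates with respect to `v a, …, v (a + k - 1)`. -/
noncomputable def Zm (𝕜 : Type*) [RCLike 𝕜] {E : Type*} [NormedAddCommGroup E]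
    [InnerProductSpace 𝕜 E] (v : ℕ → E) (a k : ℕ) : E →L[𝕜] EuclideanSpace 𝕜 (Fin k) :=
  ((EuclideanSpace.equiv (Fin k) 𝕜).symm : (Fin k → 𝕜) →L[𝕜] EuclideanSpace 𝕜 (Fin k)) ∘L
    ContinuousLinearMap.pi (fun i : Fin k => innerSL 𝕜 (v (a + i)))

/-- The synthesis map of `v a, …, v (a + k - 1)`. -/
noncomputable def Jm (𝕜 : Type*) [RCLike 𝕜] {E : Type*} [NormedAddCommGroup E]
    [InnerProductSpace 𝕜 E] (v : ℕ → E) (a k : ℕ) : EuclideanSpace 𝕜 (Fin k) →L[𝕜] E :=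
  ∑ i : Fin k, (EuclideanSpace.proj i : EuclideanSpace 𝕜 (Fin k) →L[𝕜] 𝕜).smulRight (v (a + i))

lemma Zm_apply (v : ℕ → E) (a k : ℕ) (x : E) (i : Fin k) : Zm 𝕜 v a k x i = ⟪v (a + i), x⟫_𝕜 := by
  simp [Zm]

lemma Jm_apply (v : ℕ → E) (a k : ℕ) (c : EuclideanSpace 𝕜 (Fin k)) :
    Jm 𝕜 v a k c = ∑ i : Fin k, c i • v (a + i) := by
  simp [Jm]

lemma sum_shift_le {f : ℕ → ℝ} {N : ℕ} (hf : ∀ i, 0 ≤ f i) (hN : ∀ i, N ≤ i → f i = 0) (a k : ℕ) :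
    ∑ i : Fin k, f (a + i) ≤ ∑ i ∈ range N, f i := by
  have h1 : ∑ i : Fin k, f (a + i) = ∑ i ∈ range k, f (a + i) :=
    (Finset.sum_range (fun i => f (a + i))).symm
  have h2 := Finset.sum_range_add f a k
  have h3 : 0 ≤ ∑ i ∈ range a, f i := Finset.sum_nonneg fun i _ => hf i
  have h4 : ∑ i ∈ range (a + k), f i ≤ ∑ i ∈ range (max N (a + k)), f i :=
    Finset.sum_le_sum_of_subset_of_nonneg (Finset.range_subset_range.2 (le_max_right _ _))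
      fun i _ _ => hf i
  have h5 : ∑ i ∈ range N, f i = ∑ i ∈ range (max N (a + k)), f i := by
    refine Finset.sum_subset (Finset.range_subset_range.2 (le_max_left _ _)) fun i _ hi => ?_
    exact hN i (by simpa using hi)
  rw [h1, h5]
  linarith

lemma norm_Zm_le {v : ℕ → E} (hv3 : ∀ i, finrank 𝕜 E ≤ i → v i = 0)
    (hv5 : ∀ x, ‖x‖ ^ 2 = ∑ i ∈ range (finrank 𝕜 E), ‖⟪v i, x⟫_𝕜‖ ^ 2) (a k : ℕ) :
    ‖Zm 𝕜 v a k‖ ≤ 1 := by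
  refine ContinuousLinearMap.opNorm_le_bound _ zero_le_one fun x => ?_
  rw [one_mul]
  refine le_of_sq_le_sq ?_ (norm_nonneg _)
  rw [EuclideanSpace.norm_sq_eq, hv5 x]
  simp only [Zm_apply]
  refine sum_shift_le (f := fun i => ‖⟪v i, x⟫_𝕜‖ ^ 2) (fun i => by positivity) (fun i hi => ?_) a k
  simp [hv3 i hi]

lemma Jm_eq [CompleteSpace E] (v : ℕ → E) (a k : ℕ) : Jm 𝕜 v a k = ContinuousLinearMap.adjoint (Zm 𝕜 v a k) := by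
  rw [ContinuousLinearMap.eq_adjoint_iff]
  intro c x
  rw [Jm_apply, sum_inner, PiLp.inner_apply]
  refine Finset.sum_congr rfl fun i _ => ?_
  rw [Zm_apply, inner_smul_left]
  simp [mul_comm]

lemma norm_Jm_le {v : ℕ → E} (hv3 : ∀ i, finrank 𝕜 E ≤ i → v i = 0)
    (hv5 : ∀ x, ‖x‖ ^ 2 = ∑ i ∈ range (finrank 𝕜 E), ‖⟪v i, x⟫_𝕜‖ ^ 2) (a k : ℕ) :
    ‖Jm 𝕜 v a k‖ ≤ 1 := by
  have : CompleteSpace E := FiniteDimensional.complete 𝕜 E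
  rw [Jm_eq, LinearIsometryEquiv.norm_map]
  exact norm_Zm_le hv3 hv5 a k

lemma norm_comp_Jm_le (T : E →L[𝕜] E) {v : ℕ → E} (hv1 : ∀ i j, i ≠ j → ⟪v i, v j⟫_𝕜 = 0)
    (hv3 : ∀ i, finrank 𝕜 E ≤ i → v i = 0)
    (hv4 : ∀ x, ‖T x‖ ^ 2 = ∑ i ∈ range (finrank 𝕜 E), sv T i ^ 2 * ‖⟪v i, x⟫_𝕜‖ ^ 2)
    (hv5 : ∀ x, ‖x‖ ^ 2 = ∑ i ∈ range (finrank 𝕜 E), ‖⟪v i, x⟫_𝕜‖ ^ 2) (a k : ℕ) :
    ‖T ∘L Jm 𝕜 v a k‖ ≤ sv T a := by
  refine ContinuousLinearMap.opNorm_le_bound _ (sv_nonneg _ _) fun c => ?_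
  rw [ContinuousLinearMap.comp_apply]
  have h1 : ‖T (Jm 𝕜 v a k c)‖ ≤ sv T a * ‖Jm 𝕜 v a k c‖ := by
    refine norm_le_sv T hv4 hv5 fun i hi => ?_
    rw [Jm_apply, inner_sum]
    refine Finset.sum_eq_zero fun j _ => ?_
    rw [inner_smul_right, hv1 i _ (by omega), mul_zero]
  have h2 : ‖Jm 𝕜 v a k c‖ ≤ ‖c‖ := by
    have := (Jm 𝕜 v a k).le_of_opNorm_le (norm_Jm_le hv3 hv5 a k) c
    rwa [one_mul] at this
  exact h1.trans (mul_le_mul_of_nonneg_left h2 (sv_nonneg _ _))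

lemma proj_add (v : ℕ → E) (a k : ℕ) :
    proj (𝕜 := 𝕜) v (a + k) = proj v a + Jm 𝕜 v a k ∘L Zm 𝕜 v a k := by
  ext x
  rw [add_apply, ContinuousLinearMap.comp_apply, proj_apply, proj_apply, Jm_apply,
    Finset.sum_range_add, Finset.sum_range (fun i => ⟪v (a + i), x⟫_𝕜 • v (a + i))]
  congr 1

lemma norm_tail_le (T : E →L[𝕜] E) {v : ℕ → E} (hv1 : ∀ i j, i ≠ j → ⟪v i, v j⟫_𝕜 = 0)
    (hv2 : ∀ i < finrank 𝕜 E, ‖v i‖ = 1) (hv3 : ∀ i, finrank 𝕜 E ≤ i → v i = 0)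
    (hv4 : ∀ x, ‖T x‖ ^ 2 = ∑ i ∈ range (finrank 𝕜 E), sv T i ^ 2 * ‖⟪v i, x⟫_𝕜‖ ^ 2)
    (hv5 : ∀ x, ‖x‖ ^ 2 = ∑ i ∈ range (finrank 𝕜 E), ‖⟪v i, x⟫_𝕜‖ ^ 2) (a : ℕ) :
    ‖T - T ∘L proj (𝕜 := 𝕜) v a‖ ≤ sv T a := by
  refine ContinuousLinearMap.opNorm_le_bound _ (sv_nonneg _ _) fun x => ?_
  have h0 : (T - T ∘L proj (𝕜 := 𝕜) v a) x = T (x - proj (𝕜 := 𝕜) v a x) := by simp
  rw [h0]
  have hin : ∀ i, ⟪v i, x - proj (𝕜 := 𝕜) v a x⟫_𝕜 = if i < a then 0 else ⟪v i, x⟫_𝕜 := by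
    intro i
    rw [inner_sub_right, proj_apply, inner_sum]
    simp only [inner_smul_right]
    split_ifs with hi
    · rw [Finset.sum_eq_single i]
      · by_cases hiN : i < finrank 𝕜 E
        · rw [inner_self_eq_norm_sq_to_K, hv2 i hiN]
          simp
        · rw [hv3 i (not_lt.1 hiN)]
          simp
      · intro b _ hb
        rw [hv1 i b hb.symm, mul_zero]
      · intro h
        exact absurd (Finset.mem_range.2 hi) h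
    · rw [Finset.sum_eq_zero, sub_zero]
      intro b hb
      rw [hv1 i b (by have := Finset.mem_range.1 hb; omega), mul_zero]
  have h1 : ‖T (x - proj (𝕜 := 𝕜) v a x)‖ ≤ sv T a * ‖x - proj (𝕜 := 𝕜) v a x‖ := by
    refine norm_le_sv T hv4 hv5 fun i hi => ?_
    rw [hin i, if_pos hi]
  have h2 : ‖x - proj (𝕜 := 𝕜) v a x‖ ≤ ‖x‖ := by
    refine le_of_sq_le_sq ?_ (norm_nonneg _)
    rw [hv5, hv5 x]
    refine Finset.sum_le_sum fun i _ => ?_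
    rw [hin i]
    split_ifs
    · simp
    · exact le_rfl
  exact h1.trans (mul_le_mul_of_nonneg_left h2 (sv_nonneg _ _))

/-- The head of an operator: a sum of products of operators through `𝕜 ^ (2 ^ l)`. -/
lemma head (T : E →L[𝕜] E) (L : ℕ) :
    ∃ (Y : ∀ l : ℕ, EuclideanSpace 𝕜 (Fin (2 ^ l)) →L[𝕜] E)
      (Z : ∀ l : ℕ, E →L[𝕜] EuclideanSpace 𝕜 (Fin (2 ^ l))),
      (∀ l, ‖Y l‖ ≤ sv T (2 ^ l - 1)) ∧ (∀ l, ‖Z l‖ ≤ 1) ∧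
      ‖T - ∑ l ∈ range L, Y l ∘L Z l‖ ≤ sv T (2 ^ L - 1) := by
  obtain ⟨v, hv1, hv2, hv3, hv4, hv5⟩ := exists_basis T
  refine ⟨fun l => T ∘L Jm 𝕜 v (2 ^ l - 1) (2 ^ l), fun l => Zm 𝕜 v (2 ^ l - 1) (2 ^ l),
    fun l => norm_comp_Jm_le T hv1 hv3 hv4 hv5 _ _, fun l => norm_Zm_le hv3 hv5 _ _, ?_⟩
  have h1 : ∀ L : ℕ, ∑ l ∈ range L, (T ∘L Jm 𝕜 v (2 ^ l - 1) (2 ^ l)) ∘L Zm 𝕜 v (2 ^ l - 1) (2 ^ l) =
      T ∘L proj (𝕜 := 𝕜) v (2 ^ L - 1) := by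
    intro L
    induction L with
    | zero => simp [proj]
    | succ L ih =>
      have h2 : 2 ^ (L + 1) - 1 = (2 ^ L - 1) + 2 ^ L := by
        have : 1 ≤ 2 ^ L := Nat.one_le_two_pow
        rw [pow_succ]
        omega
      rw [Finset.sum_range_succ, ih, h2, proj_add, ContinuousLinearMap.comp_add,
        ContinuousLinearMap.comp_assoc]
  rw [h1]
  exact norm_tail_le T hv1 hv2 hv3 hv4 hv5 _

end Pool.Agent.Q93.KS
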