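import Pool.Agent.Q93.KS.KS2

set_option autoImplicit false
set_option linter.unusedSectionVars false

open Module Finset
open scoped InnerProductSpace

namespace Pool.Agent.Q93.KS

section Net

variable (V : Type*) [NormedAddCommGroup V] [NormedSpace ℝ V] [FiniteDimensional ℝ V]

lemma net_half : ∃ s : Finset V, s.card ≤ 5 ^ finrank ℝ V ∧
    ∀ x : V, ‖x‖ ≤ 1 → ∃ c ∈ s, ‖x - c‖ ≤ 1 / 2 := by
  classical
  let P : Finset V → Prop := fun s => (∀ c ∈ s, ‖c‖ ≤ 2) ∧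
    ∀ c ∈ s, ∀ d ∈ s, c ≠ d → 1 ≤ ‖c - d‖
  have hmax : ∃ s : Finset V, P s ∧ ∀ t : Finset V, P t → t.card ≤ s.card := by
    by_contra hcon
    push Not at hcon
    have h1 : ∀ n : ℕ, ∃ s : Finset V, P s ∧ n ≤ s.card := by
      intro n
      induction n with
      | zero => exact ⟨∅, ⟨by simp, by simp⟩, Nat.zero_le _⟩
      | succ n ih =>
        obtain ⟨s, hs, hn⟩ := ih
        obtain ⟨t, ht, htc⟩ := hcon s hs
        exact ⟨t, ht, by omega⟩
    obtain ⟨s, hs, hn⟩ := h1 (5 ^ finrank ℝ V + 1)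
    have := Besicovitch.card_le_of_separated s hs.1 hs.2
    omega
  obtain ⟨s, hs, hm⟩ := hmax
  refine ⟨s.image fun c => (1 / 2 : ℝ) • c, Finset.card_image_le.trans
    (Besicovitch.card_le_of_separated s hs.1 hs.2), fun x hx => ?_⟩
  have h1 : ∃ c ∈ s, ‖(2 : ℝ) • x - c‖ < 1 := by
    by_contra hcon
    push Not at hcon
    have hx2 : (2 : ℝ) • x ∉ s := by
      intro hmem
      have := hcon _ hmem
      rw [sub_self, norm_zero] at this
      linarith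
    have hP : P (insert ((2 : ℝ) • x) s) := by
      refine ⟨?_, ?_⟩
      · intro c hc
        rcases Finset.mem_insert.1 hc with rfl | hc
        · rw [norm_smul, Real.norm_eq_abs, abs_of_pos (by norm_num : (0:ℝ) < 2)]
          linarith
        · exact hs.1 c hc
      · intro c hc d hd hcd
        rcases Finset.mem_insert.1 hc with rfl | hc
        · rcases Finset.mem_insert.1 hd with rfl | hd
          · exact absurd rfl hcd
          · exact hcon d hd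
        · rcases Finset.mem_insert.1 hd with rfl | hd
          · rw [norm_sub_rev]
            exact hcon c hc
          · exact hs.2 c hc d hd hcd
    have := hm _ hP
    rw [Finset.card_insert_of_notMem hx2] at this
    omega
  obtain ⟨c, hc, hcx⟩ := h1
  refine ⟨(1 / 2 : ℝ) • c, Finset.mem_image_of_mem _ hc, ?_⟩
  have h2 : x - (1 / 2 : ℝ) • c = (1 / 2 : ℝ) • ((2 : ℝ) • x - c) := by
    rw [smul_sub, smul_smul]
    norm_num
  rw [h2, norm_smul, Real.norm_eq_abs, abs_of_pos (by norm_num : (0:ℝ) < 1 / 2)]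
  linarith

lemma net_pow (j : ℕ) : ∃ s : Finset V, s.card ≤ 5 ^ (j * finrank ℝ V) ∧
    ∀ x : V, ‖x‖ ≤ 1 → ∃ c ∈ s, ‖x - c‖ ≤ (1 / 2) ^ j := by
  classical
  induction j with
  | zero =>
    refine ⟨{0}, by simp, fun x hx => ⟨0, by simp, by simpa using hx⟩⟩
  | succ j ih =>
    obtain ⟨s, hs, hs2⟩ := ih
    obtain ⟨u, hu, hu2⟩ := net_half V
    refine ⟨(u ×ˢ s).image fun c => c.1 + (1 / 2 : ℝ) • c.2, ?_, fun x hx => ?_⟩
    · refine Finset.card_image_le.trans ?_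
      rw [Finset.card_product, add_mul, one_mul, pow_add, mul_comm]
      exact Nat.mul_le_mul hs hu
    · obtain ⟨c, hc, hcx⟩ := hu2 x hx
      obtain ⟨d, hd, hdx⟩ := hs2 ((2 : ℝ) • (x - c)) (by
        rw [norm_smul, Real.norm_eq_abs, abs_of_pos (by norm_num : (0:ℝ) < 2)]
        linarith)
      refine ⟨c + (1 / 2 : ℝ) • d, Finset.mem_image.2 ⟨(c, d), Finset.mem_product.2 ⟨hc, hd⟩, rfl⟩, ?_⟩
      have h2 : x - (c + (1 / 2 : ℝ) • d) = (1 / 2 : ℝ) • ((2 : ℝ) • (x - c) - d) := by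
        rw [smul_sub, smul_smul]
        norm_num
        abel
      rw [h2, norm_smul, Real.norm_eq_abs, abs_of_pos (by norm_num : (0:ℝ) < 1 / 2), pow_succ']
      linarith

end Net

variable {𝕜 : Type*} [RCLike 𝕜]

lemma finiteDim_op (m k : ℕ) :
    FiniteDimensional ℝ (EuclideanSpace 𝕜 (Fin m) →L[𝕜] EuclideanSpace 𝕜 (Fin k)) := by
  have : FiniteDimensional 𝕜 (EuclideanSpace 𝕜 (Fin m) →L[𝕜] EuclideanSpace 𝕜 (Fin k)) :=
    Module.Finite.equiv (LinearMap.toContinuousLinearMap :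
      (EuclideanSpace 𝕜 (Fin m) →ₗ[𝕜] EuclideanSpace 𝕜 (Fin k)) ≃ₗ[𝕜] _)
  exact Module.Finite.trans 𝕜 _

lemma finrank_op_le (m k : ℕ) :
    finrank ℝ (EuclideanSpace 𝕜 (Fin m) →L[𝕜] EuclideanSpace 𝕜 (Fin k)) ≤ 2 * (m * k) := by
  rw [← Module.finrank_mul_finrank ℝ 𝕜 (EuclideanSpace 𝕜 (Fin m) →L[𝕜] EuclideanSpace 𝕜 (Fin k)),
    ← LinearEquiv.finrank_eq (LinearMap.toContinuousLinearMap :
      (EuclideanSpace 𝕜 (Fin m) →ₗ[𝕜] EuclideanSpace 𝕜 (Fin k)) ≃ₗ[𝕜] _),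
    Module.finrank_linearMap, finrank_euclideanSpace_fin, finrank_euclideanSpace_fin]
  exact Nat.mul_le_mul_right _ (RCLike.finrank_le_two 𝕜)

lemma finrank_range_add_le {E F : Type*} [AddCommGroup E] [Module 𝕜 E] [AddCommGroup F] [Module 𝕜 F]
    [FiniteDimensional 𝕜 E] (A B : E →ₗ[𝕜] F) : finrank 𝕜 (LinearMap.range (A + B)) ≤
      finrank 𝕜 (LinearMap.range A) + finrank 𝕜 (LinearMap.range B) := by
  refine le_trans (Submodule.finrank_mono ?_) (Submodule.finrank_add_le_finrank_add_finrank _ _)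
  rintro _ ⟨x, rfl⟩
  exact Submodule.add_mem_sup ⟨x, rfl⟩ ⟨x, rfl⟩

/-- Nets for sums of products of operators through `𝕜 ^ (2 ^ l)`. -/
lemma head_net (N : ℕ) (c : ℕ → ℝ) (hc : ∀ l, 0 < c l) (jl : ℕ → ℕ) (L : ℕ) :
    ∃ H : Finset (EuclideanSpace 𝕜 (Fin N) →L[𝕜] EuclideanSpace 𝕜 (Fin N)),
      H.card ≤ 5 ^ (∑ l ∈ range L, 4 * N * (jl l * 2 ^ l)) ∧
      (∀ z ∈ H, finrank 𝕜 (LinearMap.range
        (z : EuclideanSpace 𝕜 (Fin N) →ₗ[𝕜] EuclideanSpace 𝕜 (Fin N))) ≤ 2 ^ L - 1) ∧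
      ∀ (Y : ∀ l : ℕ, EuclideanSpace 𝕜 (Fin (2 ^ l)) →L[𝕜] EuclideanSpace 𝕜 (Fin N))
        (Z : ∀ l : ℕ, EuclideanSpace 𝕜 (Fin N) →L[𝕜] EuclideanSpace 𝕜 (Fin (2 ^ l))),
        (∀ l, ‖Y l‖ ≤ c l) → (∀ l, ‖Z l‖ ≤ 1) →
        ∃ z ∈ H, ‖∑ l ∈ range L, Y l ∘L Z l - z‖ ≤ ∑ l ∈ range L, 3 * c l * (1 / 2) ^ (jl l) := by
  classical
  induction L with
  | zero =>
    refine ⟨{0}, by simp, ?_, fun Y Z _ _ => ⟨0, by simp, by simp⟩⟩
    intro z hz
    rw [Finset.mem_singleton] at hz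
    subst hz
    simp
  | succ L ih =>
    obtain ⟨H, hH1, hH2, hH3⟩ := ih
    have := finiteDim_op (𝕜 := 𝕜) (2 ^ L) N
    have := finiteDim_op (𝕜 := 𝕜) N (2 ^ L)
    obtain ⟨s, hs1, hs2⟩ :=
      net_pow (EuclideanSpace 𝕜 (Fin (2 ^ L)) →L[𝕜] EuclideanSpace 𝕜 (Fin N)) (jl L)
    obtain ⟨u, hu1, hu2⟩ :=
      net_pow (EuclideanSpace 𝕜 (Fin N) →L[𝕜] EuclideanSpace 𝕜 (Fin (2 ^ L))) (jl L)
    refine ⟨(H ×ˢ (s ×ˢ u)).image fun w => w.1 + c L • (w.2.1 ∘L w.2.2), ?_, ?_, ?_⟩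
    · refine Finset.card_image_le.trans ?_
      rw [Finset.card_product, Finset.card_product, Finset.sum_range_succ, pow_add]
      refine Nat.mul_le_mul hH1 ?_
      have h1 : s.card ≤ 5 ^ (jl L * (2 * (2 ^ L * N))) :=
        hs1.trans (Nat.pow_le_pow_right (by norm_num) (Nat.mul_le_mul_left _ (finrank_op_le _ _)))
      have h2 : u.card ≤ 5 ^ (jl L * (2 * (N * 2 ^ L))) :=
        hu1.trans (Nat.pow_le_pow_right (by norm_num) (Nat.mul_le_mul_left _ (finrank_op_le _ _)))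
      refine (Nat.mul_le_mul h1 h2).trans (le_of_eq ?_)
      rw [← pow_add]
      congr 1
      ring
    · intro z hz
      obtain ⟨⟨h, y, w⟩, hmem, rfl⟩ := Finset.mem_image.1 hz
      rw [Finset.mem_product] at hmem
      have h1 := hH2 h hmem.1
      refine (finrank_range_add_le (h : EuclideanSpace 𝕜 (Fin N) →ₗ[𝕜] EuclideanSpace 𝕜 (Fin N))
        ((c L • (y ∘L w) : EuclideanSpace 𝕜 (Fin N) →L[𝕜] EuclideanSpace 𝕜 (Fin N)) :
          EuclideanSpace 𝕜 (Fin N) →ₗ[𝕜] EuclideanSpace 𝕜 (Fin N))).trans ?_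
      have h2 : finrank 𝕜 (LinearMap.range
          ((c L • (y ∘L w) : EuclideanSpace 𝕜 (Fin N) →L[𝕜] EuclideanSpace 𝕜 (Fin N)) :
          EuclideanSpace 𝕜 (Fin N) →ₗ[𝕜] EuclideanSpace 𝕜 (Fin N))) ≤ 2 ^ L := by
        have h3 : LinearMap.range
            ((c L • (y ∘L w) : EuclideanSpace 𝕜 (Fin N) →L[𝕜] EuclideanSpace 𝕜 (Fin N)) :
            EuclideanSpace 𝕜 (Fin N) →ₗ[𝕜] EuclideanSpace 𝕜 (Fin N)) ≤
            LinearMap.range (y : EuclideanSpace 𝕜 (Fin (2 ^ L)) →ₗ[𝕜] EuclideanSpace 𝕜 (Fin N)) := by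
          rintro _ ⟨x, rfl⟩
          refine ⟨(c L : 𝕜) • w x, ?_⟩
          simp
        refine (Submodule.finrank_mono h3).trans ((LinearMap.finrank_range_le _).trans ?_)
        rw [finrank_euclideanSpace_fin]
      have h4 : 1 ≤ 2 ^ L := Nat.one_le_two_pow
      rw [pow_succ]
      omega
    · intro Y Z hY hZ
      obtain ⟨h, hh, hh2⟩ := hH3 Y Z hY hZ
      have hcL := hc L
      obtain ⟨y, hy, hy2⟩ := hs2 ((c L)⁻¹ • Y L) (by
        rw [norm_smul, norm_inv, Real.norm_eq_abs, abs_of_pos hcL, inv_mul_le_iff₀ hcL, mul_one]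
        exact hY L)
      obtain ⟨w, hw, hw2⟩ := hu2 (Z L) (hZ L)
      refine ⟨h + c L • (y ∘L w), Finset.mem_image.2 ⟨(h, y, w), Finset.mem_product.2
        ⟨hh, Finset.mem_product.2 ⟨hy, hw⟩⟩, rfl⟩, ?_⟩
      rw [Finset.sum_range_succ, Finset.sum_range_succ]
      have hY' : ‖(c L)⁻¹ • Y L‖ ≤ 1 := by
        rw [norm_smul, norm_inv, Real.norm_eq_abs, abs_of_pos hcL, inv_mul_le_iff₀ hcL, mul_one]
        exact hY L
      have hp1 : ((1 : ℝ) / 2) ^ (jl L) ≤ 1 := pow_le_one₀ (by norm_num) (by norm_num)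
      have hp0 : (0 : ℝ) ≤ (1 / 2) ^ (jl L) := by positivity
      have hyn : ‖y‖ ≤ 2 := by
        have := norm_le_norm_add_norm_sub' y ((c L)⁻¹ • Y L)
        rw [norm_sub_rev] at this
        linarith
      have e1 : ∑ l ∈ range L, Y l ∘L Z l + Y L ∘L Z L - (h + c L • (y ∘L w)) =
          (∑ l ∈ range L, Y l ∘L Z l - h) +
            c L • (((c L)⁻¹ • Y L - y) ∘L Z L + y ∘L (Z L - w)) := by
        ext1 x
        simp only [add_apply, sub_apply, smul_apply, ContinuousLinearMap.comp_apply, map_sub,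
          smul_add, smul_sub, smul_smul, mul_inv_cancel₀ hcL.ne', one_smul]
        abel
      rw [e1]
      refine (norm_add_le _ _).trans (add_le_add hh2 ?_)
      rw [norm_smul, Real.norm_eq_abs, abs_of_pos hcL]
      have h5 : ‖((c L)⁻¹ • Y L - y) ∘L Z L + y ∘L (Z L - w)‖ ≤ 3 * (1 / 2) ^ (jl L) := by
        refine (norm_add_le _ _).trans ?_
        have h6 : ‖((c L)⁻¹ • Y L - y) ∘L Z L‖ ≤ (1 / 2) ^ (jl L) * 1 :=
          (ContinuousLinearMap.opNorm_comp_le _ _).trans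
            (mul_le_mul hy2 (hZ L) (norm_nonneg _) hp0)
        have h7 : ‖y ∘L (Z L - w)‖ ≤ 2 * (1 / 2) ^ (jl L) :=
          (ContinuousLinearMap.opNorm_comp_le _ _).trans
            (mul_le_mul hyn hw2 (norm_nonneg _) (by norm_num))
        linarith
      calc c L * ‖((c L)⁻¹ • Y L - y) ∘L Z L + y ∘L (Z L - w)‖ ≤ c L * (3 * (1 / 2) ^ (jl L)) :=
            mul_le_mul_of_nonneg_left h5 hcL.le
        _ = 3 * c L * (1 / 2) ^ (jl L) := by ring

end Pool.Agent.Q93.KS
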