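import Mathlib

set_option autoImplicit false

open Module MeasureTheory Set
open scoped Topology Pointwise ENNReal

namespace Pool.Agent.Q93.KS

/-- Volume comparison in a quotient space. -/
lemma vol {V : Type*} [NormedAddCommGroup V] [NormedSpace ℝ V] [FiniteDimensional ℝ V]
    (L : Submodule ℝ V) {P Q : Set V} (hP : Bornology.IsBounded P) (hP0 : P ∈ 𝓝 (0 : V))
    (s : Finset V) {ε t : ℝ} (hε : 0 ≤ ε) (ht : 0 ≤ t)
    (hQ : ∀ x ∈ Q, ∃ z ∈ s, ∃ y ∈ P, x = z + ε • y) (hPQ : ∀ x ∈ P, ∃ y ∈ Q, x - t • y ∈ L) :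
    1 ≤ s.card * (t * ε) ^ (finrank ℝ V - finrank ℝ L) := by
  set D := finrank ℝ V - finrank ℝ L with hD
  have hfin : finrank ℝ (V ⧸ L) = finrank ℝ (Fin D → ℝ) := by
    rw [Module.finrank_fin_fun, hD]
    have := L.finrank_quotient_add_finrank
    omega
  let e := LinearEquiv.ofFinrankEq (V ⧸ L) (Fin D → ℝ) hfin
  let φ : V →ₗ[ℝ] (Fin D → ℝ) := e.toLinearMap ∘ₗ L.mkQ
  have hsurj : Function.Surjective φ := e.surjective.comp L.mkQ_surjective
  have hker : ∀ x ∈ L, φ x = 0 := by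
    intro x hx
    have : L.mkQ x = 0 := by simpa using hx
    simp [φ, this]
  have hbdd : Bornology.IsBounded (φ '' P) :=
    (LinearMap.toContinuousLinearMap φ).lipschitz.isBounded_image hP
  have hnhds : φ '' P ∈ 𝓝 (0 : Fin D → ℝ) := by
    have h1 : IsOpenMap φ := LinearMap.isOpenMap_of_finiteDimensional φ hsurj
    have := h1.image_mem_nhds hP0
    rwa [map_zero] at this
  have h0 : volume (φ '' P) ≠ 0 := (MeasureTheory.Measure.measure_pos_of_mem_nhds volume hnhds).ne'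
  have htop : volume (φ '' P) ≠ ∞ := hbdd.measure_lt_top.ne
  have hsub : φ '' P ⊆ ⋃ z ∈ s, (φ (t • z) +ᵥ ((t * ε) • (φ '' P))) := by
    rintro _ ⟨x, hx, rfl⟩
    obtain ⟨y, hy, hxy⟩ := hPQ x hx
    obtain ⟨z, hz, w, hw, rfl⟩ := hQ y hy
    simp only [mem_iUnion]
    refine ⟨z, hz, Set.mem_vadd_set.2 ⟨(t * ε) • φ w, Set.smul_mem_smul_set ⟨w, hw, rfl⟩, ?_⟩⟩
    have h1 := hker _ hxy
    rw [map_sub, sub_eq_zero] at h1
    rw [h1, vadd_eq_add, smul_add, smul_smul, map_add, map_smul φ (t * ε)]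
  have hle : volume (φ '' P) ≤ ENNReal.ofReal (s.card * (t * ε) ^ D) * volume (φ '' P) := by
    calc volume (φ '' P) ≤ volume (⋃ z ∈ s, (φ (t • z) +ᵥ ((t * ε) • (φ '' P)))) :=
          measure_mono hsub
      _ ≤ ∑ z ∈ s, volume (φ (t • z) +ᵥ ((t * ε) • (φ '' P))) := measure_biUnion_finset_le _ _
      _ = ∑ z ∈ s, ENNReal.ofReal ((t * ε) ^ D) * volume (φ '' P) := by
          refine Finset.sum_congr rfl fun z _ => ?_
          rw [measure_vadd, Measure.addHaar_smul_of_nonneg _ (mul_nonneg ht hε),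
            Module.finrank_fin_fun]
      _ = _ := by
          rw [Finset.sum_const, nsmul_eq_mul, ← mul_assoc, ENNReal.ofReal_mul (Nat.cast_nonneg _),
            ENNReal.ofReal_natCast]
  by_contra hcon
  push Not at hcon
  have h2 : ENNReal.ofReal (s.card * (t * ε) ^ D) * volume (φ '' P) < 1 * volume (φ '' P) := by
    refine ENNReal.mul_lt_mul_left h0 htop ?_
    rw [← ENNReal.ofReal_one]
    exact (ENNReal.ofReal_lt_ofReal_iff one_pos).2 hcon
  rw [one_mul] at h2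
  exact absurd hle (not_le.2 h2)

end Pool.Agent.Q93.KS
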