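import Pool.Agent.Q93.KS.KS3
import Pool.Agent.Q93.KS.KS4

set_option autoImplicit false
set_option linter.unusedSectionVars false

open Module Finset
open scoped InnerProductSpace ENNReal Topology

namespace Pool.Agent.Q93.KS

variable {𝕜 : Type*} [RCLike 𝕜] {N : ℕ}

/-- Operators of the Euclidean space. -/
abbrev Op (𝕜 : Type*) [RCLike 𝕜] (N : ℕ) : Type _ :=
  EuclideanSpace 𝕜 (Fin N) →L[𝕜] EuclideanSpace 𝕜 (Fin N)

/-- The Schatten quasi-norm. -/
noncomputable def S (p : ℝ≥0∞) (T : Op 𝕜 N) : ℝ :=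
  if p = ∞ then ‖T‖ else (∑ j ∈ range N, sv T j ^ p.toReal) ^ (1 / p.toReal)

lemma S_top (T : Op 𝕜 N) : S ∞ T = ‖T‖ := if_pos rfl

lemma S_of_ne {p : ℝ≥0∞} (hp : p ≠ ∞) (T : Op 𝕜 N) :
    S p T = (∑ j ∈ range N, sv T j ^ p.toReal) ^ (1 / p.toReal) := if_neg hp

lemma S_nonneg (p : ℝ≥0∞) (T : Op 𝕜 N) : 0 ≤ S p T := by
  by_cases hp : p = ∞
  · rw [hp, S_top]
    exact norm_nonneg _
  · rw [S_of_ne hp]
    exact Real.rpow_nonneg (Finset.sum_nonneg fun j _ => Real.rpow_nonneg (sv_nonneg _ _) _) _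

lemma sv_smul_le {c : ℝ} (hc : 0 ≤ c) (T : Op 𝕜 N) (j : ℕ) : sv (c • T) j ≤ c * sv T j := by
  obtain ⟨φ, hφ⟩ := exists_small T j
  refine sv_le_of (c • T) φ (mul_nonneg hc (sv_nonneg _ _)) ?_ fun x hx => ?_
  · have := Submodule.finrank_le (LinearMap.range φ)
    rwa [Module.finrank_fin_fun] at this
  · rw [smul_apply, norm_smul, Real.norm_eq_abs, abs_of_nonneg hc, mul_assoc]
    exact mul_le_mul_of_nonneg_left (hφ x hx) hc

lemma sv_smul {c : ℝ} (hc : 0 < c) (T : Op 𝕜 N) (j : ℕ) : sv (c • T) j = c * sv T j := by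
  refine le_antisymm (sv_smul_le hc.le T j) ?_
  have h := sv_smul_le (inv_nonneg.2 hc.le) (c • T) j
  rw [smul_smul, inv_mul_cancel₀ hc.ne', one_smul] at h
  have := mul_le_mul_of_nonneg_left h hc.le
  rwa [← mul_assoc, mul_inv_cancel₀ hc.ne', one_mul] at this

lemma S_smul {c : ℝ} (hc : 0 < c) {p : ℝ≥0∞} (hp0 : 0 < p) (T : Op 𝕜 N) :
    S p (c • T) = c * S p T := by
  by_cases hp : p = ∞
  · rw [hp, S_top, S_top, norm_smul, Real.norm_eq_abs, abs_of_pos hc]
  · have hpr : 0 < p.toReal := ENNReal.toReal_pos hp0.ne' hp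
    rw [S_of_ne hp, S_of_ne hp]
    simp only [sv_smul hc]
    have h1 : ∀ j, (c * sv T j) ^ p.toReal = c ^ p.toReal * sv T j ^ p.toReal := fun j =>
      Real.mul_rpow hc.le (sv_nonneg _ _)
    simp only [h1]
    rw [← Finset.mul_sum, Real.mul_rpow (Real.rpow_nonneg hc.le _)
      (Finset.sum_nonneg fun j _ => Real.rpow_nonneg (sv_nonneg _ _) _), ← Real.rpow_mul hc.le,
      mul_one_div_cancel hpr.ne', Real.rpow_one]

lemma S_inv_smul {c : ℝ} (hc : 0 < c) {p : ℝ≥0∞} (hp0 : 0 < p) {T : Op 𝕜 N} (h : S p T ≤ c) :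
    S p (c⁻¹ • T) ≤ 1 := by
  rw [S_smul (inv_pos.2 hc) hp0, inv_mul_le_iff₀ hc, mul_one]
  exact h

lemma sum_le_of_S_le {p : ℝ≥0∞} (hp0 : 0 < p) (hp : p ≠ ∞) {T : Op 𝕜 N} (h : S p T ≤ 1) :
    ∑ j ∈ range N, sv T j ^ p.toReal ≤ 1 := by
  have hpr : 0 < p.toReal := ENNReal.toReal_pos hp0.ne' hp
  rw [S_of_ne hp] at h
  have h0 : 0 ≤ ∑ j ∈ range N, sv T j ^ p.toReal :=
    Finset.sum_nonneg fun j _ => Real.rpow_nonneg (sv_nonneg _ _) _
  by_contra hcon
  push Not at hcon
  have := Real.one_lt_rpow hcon (one_div_pos.2 hpr)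
  linarith

lemma S_le_of_sum_le {p : ℝ≥0∞} (hp0 : 0 < p) (hp : p ≠ ∞) {T : Op 𝕜 N} {c : ℝ} (hc : 0 ≤ c)
    (h : ∑ j ∈ range N, sv T j ^ p.toReal ≤ c ^ p.toReal) : S p T ≤ c := by
  have hpr : 0 < p.toReal := ENNReal.toReal_pos hp0.ne' hp
  rw [S_of_ne hp]
  have h0 : 0 ≤ ∑ j ∈ range N, sv T j ^ p.toReal :=
    Finset.sum_nonneg fun j _ => Real.rpow_nonneg (sv_nonneg _ _) _
  calc (∑ j ∈ range N, sv T j ^ p.toReal) ^ (1 / p.toReal) ≤ (c ^ p.toReal) ^ (1 / p.toReal) :=
        Real.rpow_le_rpow h0 h (one_div_pos.2 hpr).le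
    _ = c := by rw [← Real.rpow_mul hc, mul_one_div_cancel hpr.ne', Real.rpow_one]

/-- Decay of singular values. -/
lemma sv_decay {q : ℝ≥0∞} (hq0 : 0 < q) (hq : q ≠ ∞) {T : Op 𝕜 N} (h : S q T ≤ 1) (j : ℕ) :
    sv T j ≤ ((j : ℝ) + 1) ^ (-(1 / q.toReal)) := by
  have hqr : 0 < q.toReal := ENNReal.toReal_pos hq0.ne' hq
  by_cases hj : j < N
  · have h1 := sum_le_of_S_le hq0 hq h
    have h2 : ((j : ℝ) + 1) * sv T j ^ q.toReal ≤ 1 := by
      calc ((j : ℝ) + 1) * sv T j ^ q.toReal = ∑ i ∈ range (j + 1), sv T j ^ q.toReal := by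
            rw [Finset.sum_const, Finset.card_range, nsmul_eq_mul]
            push_cast
            ring
        _ ≤ ∑ i ∈ range (j + 1), sv T i ^ q.toReal := by
            refine Finset.sum_le_sum fun i hi => Real.rpow_le_rpow (sv_nonneg _ _) ?_ hqr.le
            exact sv_anti T (by have := Finset.mem_range.1 hi; omega)
        _ ≤ ∑ i ∈ range N, sv T i ^ q.toReal :=
            Finset.sum_le_sum_of_subset_of_nonneg (Finset.range_subset_range.2 hj)
              fun i _ _ => Real.rpow_nonneg (sv_nonneg _ _) _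
        _ ≤ 1 := h1
    have hj1 : (0 : ℝ) < (j : ℝ) + 1 := by positivity
    have h3 : sv T j ^ q.toReal ≤ ((j : ℝ) + 1)⁻¹ := by
      rw [← one_div, le_div_iff₀ hj1, mul_comm]
      exact h2
    calc sv T j = (sv T j ^ q.toReal) ^ (1 / q.toReal) := by
          rw [← Real.rpow_mul (sv_nonneg _ _), mul_one_div_cancel hqr.ne', Real.rpow_one]
      _ ≤ (((j : ℝ) + 1)⁻¹) ^ (1 / q.toReal) :=
          Real.rpow_le_rpow (Real.rpow_nonneg (sv_nonneg _ _) _) h3 (one_div_pos.2 hqr).le
      _ = _ := by rw [Real.rpow_neg hj1.le, Real.inv_rpow hj1.le]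
  · rw [sv_zero_of_le T (by rw [finrank_euclideanSpace_fin]; omega)]
    positivity

lemma norm_le_S {p : ℝ≥0∞} (hp0 : 0 < p) (T : Op 𝕜 N) : ‖T‖ ≤ S p T := by
  by_cases hp : p = ∞
  · rw [hp, S_top]
  · have hpr : 0 < p.toReal := ENNReal.toReal_pos hp0.ne' hp
    rw [← sv_zero]
    by_cases hN : 0 < N
    · rw [S_of_ne hp]
      calc sv T 0 = (sv T 0 ^ p.toReal) ^ (1 / p.toReal) := by
            rw [← Real.rpow_mul (sv_nonneg _ _), mul_one_div_cancel hpr.ne', Real.rpow_one]
        _ ≤ _ := by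
            refine Real.rpow_le_rpow (Real.rpow_nonneg (sv_nonneg _ _) _) ?_ (one_div_pos.2 hpr).le
            exact Finset.single_le_sum (f := fun j => sv T j ^ p.toReal)
              (fun j _ => Real.rpow_nonneg (sv_nonneg _ _) _) (Finset.mem_range.2 hN)
    · rw [sv_zero_of_le T (by rw [finrank_euclideanSpace_fin]; omega)]
      exact S_nonneg _ _

lemma bdd_ball {p : ℝ≥0∞} (hp0 : 0 < p) : Bornology.IsBounded {T : Op 𝕜 N | S p T ≤ 1} := by
  refine (Metric.isBounded_closedBall (x := (0 : Op 𝕜 N)) (r := 1)).subset fun T hT => ?_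
  rw [mem_closedBall_zero_iff]
  exact (norm_le_S hp0 T).trans hT

lemma nhds_ball {p : ℝ≥0∞} (hp0 : 0 < p) : {T : Op 𝕜 N | S p T ≤ 1} ∈ 𝓝 (0 : Op 𝕜 N) := by
  by_cases hp : p = ∞
  · refine Filter.mem_of_superset (Metric.closedBall_mem_nhds (0 : Op 𝕜 N) one_pos) fun T hT => ?_
    rw [mem_closedBall_zero_iff] at hT
    rw [Set.mem_ofPred_eq, hp, S_top]
    exact hT
  · have hpr : 0 < p.toReal := ENNReal.toReal_pos hp0.ne' hp
    have hδ : (0 : ℝ) < ((N : ℝ) + 1) ^ (-(1 / p.toReal)) := by positivity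
    refine Filter.mem_of_superset (Metric.closedBall_mem_nhds (0 : Op 𝕜 N) hδ) fun T hT => ?_
    rw [mem_closedBall_zero_iff] at hT
    refine S_le_of_sum_le hp0 hp zero_le_one ?_
    rw [Real.one_rpow]
    have hN1 : (0 : ℝ) < (N : ℝ) + 1 := by positivity
    calc ∑ j ∈ range N, sv T j ^ p.toReal ≤ ∑ j ∈ range N, ((N : ℝ) + 1)⁻¹ := by
          refine Finset.sum_le_sum fun j _ => ?_
          calc sv T j ^ p.toReal ≤ (((N : ℝ) + 1) ^ (-(1 / p.toReal))) ^ p.toReal :=
                Real.rpow_le_rpow (sv_nonneg _ _) ((sv_le_norm T j).trans hT) hpr.le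
            _ = ((N : ℝ) + 1)⁻¹ := by
                rw [← Real.rpow_mul hN1.le, neg_mul, one_div_mul_cancel hpr.ne', Real.rpow_neg_one]
      _ = N * ((N : ℝ) + 1)⁻¹ := by
          rw [Finset.sum_const, Finset.card_range, nsmul_eq_mul]
      _ ≤ 1 := by
          rw [← div_eq_mul_inv, div_le_one hN1]
          linarith

/-- Monotonicity of the unit balls. -/
lemma ball_mono {p q : ℝ≥0∞} (hq0 : 0 < q) (hqp : q ≤ p) {T : Op 𝕜 N} (h : S q T ≤ 1) :
    S p T ≤ 1 := by
  by_cases hp : p = ∞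
  · rw [hp, S_top]
    exact (norm_le_S hq0 T).trans h
  · have hq : q ≠ ∞ := ne_top_of_le_ne_top hp hqp
    have hp0 : 0 < p := hq0.trans_le hqp
    have hqr : 0 < q.toReal := ENNReal.toReal_pos hq0.ne' hq
    have hle : q.toReal ≤ p.toReal := ENNReal.toReal_mono hp hqp
    refine S_le_of_sum_le hp0 hp zero_le_one ?_
    rw [Real.one_rpow]
    refine le_trans (Finset.sum_le_sum fun j _ => ?_) (sum_le_of_S_le hq0 hq h)
    have h1 : sv T j ≤ 1 := (sv_le_norm T j).trans ((norm_le_S hq0 T).trans h)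
    rcases (sv_nonneg T j).eq_or_lt with h0 | h0
    · rw [← h0, Real.zero_rpow hqr.ne', Real.zero_rpow (hqr.trans_le hle).ne']
    · exact Real.rpow_le_rpow_of_exponent_ge h0 h1 hle

lemma sum_geom (L : ℕ) : ∑ l ∈ range L, (L - l) * 2 ^ l ≤ 2 ^ (L + 1) := by
  have h1 : ∀ L : ℕ, ∑ l ∈ range L, 2 ^ l ≤ 2 ^ L := by
    intro L
    induction L with
    | zero => simp
    | succ L ih =>
      rw [Finset.sum_range_succ, pow_succ]
      omega
  induction L with
  | zero => simp
  | succ L ih =>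
    have h2 : ∑ l ∈ range (L + 1), (L + 1 - l) * 2 ^ l =
        ∑ l ∈ range (L + 1), (L - l) * 2 ^ l + ∑ l ∈ range (L + 1), 2 ^ l := by
      rw [← Finset.sum_add_distrib]
      refine Finset.sum_congr rfl fun l hl => ?_
      have := Finset.mem_range.1 hl
      have h3 : L + 1 - l = (L - l) + 1 := by omega
      rw [h3]
      ring
    have h4 := h1 (L + 1)
    rw [h2, Finset.sum_range_succ, Nat.sub_self, zero_mul, add_zero, pow_succ 2 (L + 1)]
    omega

/-- **Entropy estimate**: the unit ball of `S_q` is covered by few balls of `S_p`. -/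
lemma entropy {p q : ℝ≥0∞} (hq0 : 0 < q) (hq : q ≠ ∞) (hqp : q ≤ p) {a : ℕ}
    (ha : 1 / q.toReal + 1 ≤ a) :
    ∃ C : ℝ, 1 ≤ C ∧ ∀ (N L : ℕ), ∃ s : Finset (Op 𝕜 N), s.card ≤ 5 ^ (8 * a * N * 2 ^ L) ∧
      ∀ T : Op 𝕜 N, S q T ≤ 1 → ∃ z ∈ s,
        S p (T - z) ≤ C * ((2 : ℝ) ^ L) ^ (-(q⁻¹.toReal - p⁻¹.toReal)) := by
  have hqr : 0 < q.toReal := ENNReal.toReal_pos hq0.ne' hq
  have hp0 : 0 < p := hq0.trans_le hqp
  have hqi : q⁻¹.toReal = 1 / q.toReal := by rw [ENNReal.toReal_inv, one_div]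
  -- the operator norm estimate
  have key : ∀ (N L : ℕ), ∃ s : Finset (Op 𝕜 N), s.card ≤ 5 ^ (8 * a * N * 2 ^ L) ∧
      ∀ T : Op 𝕜 N, S q T ≤ 1 → ∃ z ∈ s, ‖T - z‖ ≤ 4 * ((2 : ℝ) ^ L) ^ (-(1 / q.toReal)) ∧
        ∀ j, sv (T - z) (j + 2 ^ L) ≤ sv T j := by
    intro N L
    obtain ⟨H, hH1, hH2, hH3⟩ := head_net (𝕜 := 𝕜) N (fun l => ((2 : ℝ) ^ l) ^ (-(1 / q.toReal)))
      (fun l => by positivity) (fun l => a * (L - l)) L
    refine ⟨H, hH1.trans (Nat.pow_le_pow_right (by norm_num) ?_), fun T hT => ?_⟩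
    · calc ∑ l ∈ range L, 4 * N * (a * (L - l) * 2 ^ l) =
          4 * N * a * ∑ l ∈ range L, (L - l) * 2 ^ l := by
            rw [Finset.mul_sum]
            refine Finset.sum_congr rfl fun l _ => ?_
            ring
        _ ≤ 4 * N * a * 2 ^ (L + 1) := Nat.mul_le_mul_left _ (sum_geom L)
        _ = 8 * a * N * 2 ^ L := by
            rw [pow_succ]
            ring
    · obtain ⟨Y, Z, hY, hZ, htail⟩ := head T L
      have hdec : ∀ l : ℕ, sv T (2 ^ l - 1) ≤ ((2 : ℝ) ^ l) ^ (-(1 / q.toReal)) := by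
        intro l
        have := sv_decay hq0 hq hT (2 ^ l - 1)
        have h1 : (((2 ^ l - 1 : ℕ) : ℝ) + 1) = (2 : ℝ) ^ l := by
          have : 1 ≤ 2 ^ l := Nat.one_le_two_pow
          push_cast [Nat.cast_sub this]
          ring
        rwa [h1] at this
      obtain ⟨z, hz, hz2⟩ := hH3 Y Z (fun l => (hY l).trans (hdec l)) hZ
      refine ⟨z, hz, ?_, fun j => ?_⟩
      · have h1 : ∑ l ∈ range L, 3 * ((2 : ℝ) ^ l) ^ (-(1 / q.toReal)) * (1 / 2) ^ (a * (L - l)) ≤
            3 * ((2 : ℝ) ^ L) ^ (-(1 / q.toReal)) := by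
          have h2 : ∀ l ∈ range L,
              3 * ((2 : ℝ) ^ l) ^ (-(1 / q.toReal)) * (1 / 2) ^ (a * (L - l)) ≤
              3 * ((2 : ℝ) ^ L) ^ (-(1 / q.toReal)) * (1 / 2) ^ (L - l) := by
            intro l hl
            have hlL : l < L := Finset.mem_range.1 hl
            have e1 : ((2 : ℝ) ^ l) ^ (-(1 / q.toReal)) = (2 : ℝ) ^ (-((l : ℝ) / q.toReal)) := by
              rw [← Real.rpow_natCast, ← Real.rpow_mul (by norm_num)]
              congr 1
              ring
            have e2 : ((2 : ℝ) ^ L) ^ (-(1 / q.toReal)) = (2 : ℝ) ^ (-((L : ℝ) / q.toReal)) := by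
              rw [← Real.rpow_natCast, ← Real.rpow_mul (by norm_num)]
              congr 1
              ring
            have e3 : ∀ k : ℕ, ((1 : ℝ) / 2) ^ k = (2 : ℝ) ^ (-(k : ℝ)) := by
              intro k
              rw [one_div, inv_pow, Real.rpow_neg (by norm_num), Real.rpow_natCast]
            rw [e1, e2, e3, e3, mul_assoc, mul_assoc, ← Real.rpow_add (by norm_num),
              ← Real.rpow_add (by norm_num)]
            refine mul_le_mul_of_nonneg_left ?_ (by norm_num)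
            refine Real.rpow_le_rpow_of_exponent_le (by norm_num) ?_
            push_cast [Nat.cast_sub hlL.le]
            have hd : (0 : ℝ) ≤ (L : ℝ) - l := by
              have : (l : ℝ) ≤ L := by exact_mod_cast hlL.le
              linarith
            have := mul_le_mul_of_nonneg_right ha hd
            have e4 : (L : ℝ) / q.toReal = (l : ℝ) / q.toReal + 1 / q.toReal * (L - l) := by ring
            rw [e4]
            linarith
          refine (Finset.sum_le_sum h2).trans ?_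
          rw [← Finset.mul_sum]
          have h3 : ∑ l ∈ range L, ((1 : ℝ) / 2) ^ (L - l) ≤ 1 := by
            clear h2 hz2 hz hdec htail hH3 hH2 hH1
            induction L with
            | zero => simp
            | succ L ih =>
              have h4 : ∑ l ∈ range (L + 1), ((1 : ℝ) / 2) ^ (L + 1 - l) =
                  1 / 2 * ∑ l ∈ range L, ((1 : ℝ) / 2) ^ (L - l) + 1 / 2 := by
                rw [Finset.sum_range_succ, Finset.mul_sum]
                congr 1
                · refine Finset.sum_congr rfl fun l hl => ?_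
                  have := Finset.mem_range.1 hl
                  have h5 : L + 1 - l = (L - l) + 1 := by omega
                  rw [h5, pow_succ]
                  ring
                · norm_num
              rw [h4]
              linarith
          calc 3 * ((2 : ℝ) ^ L) ^ (-(1 / q.toReal)) * ∑ l ∈ range L, ((1 : ℝ) / 2) ^ (L - l) ≤
              3 * ((2 : ℝ) ^ L) ^ (-(1 / q.toReal)) * 1 :=
                mul_le_mul_of_nonneg_left h3 (by positivity)
            _ = _ := mul_one _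
        have h2 : T - z = (T - ∑ l ∈ range L, Y l ∘L Z l) + (∑ l ∈ range L, Y l ∘L Z l - z) := by
          abel
        rw [h2]
        refine (norm_add_le _ _).trans ?_
        have h3 := htail.trans (hdec L)
        linarith
      · refine sv_sub_le T z ((hH2 z hz).trans (Nat.sub_le _ _)) j
  by_cases hp : p = ∞
  · refine ⟨4, by norm_num, fun N L => ?_⟩
    obtain ⟨s, hs1, hs2⟩ := key N L
    refine ⟨s, hs1, fun T hT => ?_⟩
    obtain ⟨z, hz, hz1, _⟩ := hs2 T hT
    refine ⟨z, hz, ?_⟩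
    rw [hp, S_top, hqi]
    simpa using hz1
  · have hpr : 0 < p.toReal := ENNReal.toReal_pos hp0.ne' hp
    have hpi : p⁻¹.toReal = 1 / p.toReal := by rw [ENNReal.toReal_inv, one_div]
    have hle : q.toReal ≤ p.toReal := ENNReal.toReal_mono hp hqp
    have hK : (1 : ℝ) ≤ 2 * 4 ^ p.toReal + 1 := by
      have : (0 : ℝ) ≤ 4 ^ p.toReal := by positivity
      linarith
    refine ⟨(2 * 4 ^ p.toReal + 1) ^ (1 / p.toReal), Real.one_le_rpow hK (one_div_pos.2 hpr).le,
      fun N L => ?_⟩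
    obtain ⟨s, hs1, hs2⟩ := key N L
    refine ⟨s, hs1, fun T hT => ?_⟩
    obtain ⟨z, hz, hz1, hz2⟩ := hs2 T hT
    refine ⟨z, hz, ?_⟩
    have hr : (0 : ℝ) < (2 : ℝ) ^ L := by positivity
    set r : ℕ := 2 ^ L with hrdef
    have hrr : (r : ℝ) = (2 : ℝ) ^ L := by rw [hrdef]; push_cast; rfl
    rw [← hrr] at hz1 hr ⊢
    set c : ℝ := (r : ℝ) ^ (-(1 / q.toReal)) with hc
    have hc0 : 0 < c := by positivity
    have hcq : c ^ (-q.toReal) = r := by
      rw [hc, ← Real.rpow_mul hr.le, neg_mul_neg, one_div_mul_cancel hqr.ne', Real.rpow_one]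
    refine S_le_of_sum_le hp0 hp (by positivity) ?_
    have hsum : ∑ j ∈ range N, sv (T - z) j ^ p.toReal ≤
        (2 * 4 ^ p.toReal + 1) * (r * c ^ p.toReal) := by
      have h1 : ∑ j ∈ range N, sv (T - z) j ^ p.toReal ≤
          ∑ j ∈ range (2 * r + N), sv (T - z) j ^ p.toReal :=
        Finset.sum_le_sum_of_subset_of_nonneg (Finset.range_subset_range.2 (by omega))
          fun i _ _ => Real.rpow_nonneg (sv_nonneg _ _) _
      refine h1.trans ?_
      rw [Finset.sum_range_add]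
      have h2 : ∑ j ∈ range (2 * r), sv (T - z) j ^ p.toReal ≤ 2 * 4 ^ p.toReal * (r * c ^ p.toReal) := by
        calc ∑ j ∈ range (2 * r), sv (T - z) j ^ p.toReal ≤ ∑ j ∈ range (2 * r), (4 * c) ^ p.toReal :=
              Finset.sum_le_sum fun j _ => Real.rpow_le_rpow (sv_nonneg _ _)
                ((sv_le_norm _ _).trans hz1) hpr.le
          _ = 2 * 4 ^ p.toReal * (r * c ^ p.toReal) := by
              rw [Finset.sum_const, Finset.card_range, nsmul_eq_mul,
                Real.mul_rpow (by norm_num) hc0.le]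
              push_cast
              ring
      have h3 : ∑ j ∈ range N, sv (T - z) (2 * r + j) ^ p.toReal ≤ r * c ^ p.toReal := by
        have h4 : ∀ j ∈ range N, sv (T - z) (2 * r + j) ^ p.toReal ≤
            c ^ (p.toReal - q.toReal) * sv T j ^ q.toReal := by
          intro j _
          have h5 : sv (T - z) (2 * r + j) ≤ sv T (r + j) := by
            have := hz2 (r + j)
            rwa [show r + j + 2 ^ L = 2 * r + j by rw [← hrdef]; ring] at this
          have h6 : sv T (r + j) ≤ c := by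
            refine (sv_decay hq0 hq hT (r + j)).trans ?_
            rw [hc]
            refine Real.rpow_le_rpow_of_nonpos hr ?_ (by
              rw [Left.neg_nonpos_iff]
              exact (one_div_pos.2 hqr).le)
            push_cast
            have : (0 : ℝ) ≤ j := Nat.cast_nonneg j
            linarith
          have h7 : sv T (r + j) ≤ sv T j := sv_anti T (Nat.le_add_left j r)
          rcases (sv_nonneg T (r + j)).eq_or_lt with h0 | h0
          · have h8 : sv (T - z) (2 * r + j) = 0 := le_antisymm (h5.trans h0.ge) (sv_nonneg _ _)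
            rw [h8, Real.zero_rpow hpr.ne']
            have := sv_nonneg T j
            positivity
          · calc sv (T - z) (2 * r + j) ^ p.toReal ≤ sv T (r + j) ^ p.toReal :=
                  Real.rpow_le_rpow (sv_nonneg _ _) h5 hpr.le
              _ = sv T (r + j) ^ (p.toReal - q.toReal) * sv T (r + j) ^ q.toReal := by
                  rw [← Real.rpow_add h0]
                  congr 1
                  ring
              _ ≤ c ^ (p.toReal - q.toReal) * sv T j ^ q.toReal :=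
                  mul_le_mul (Real.rpow_le_rpow h0.le h6 (by linarith))
                    (Real.rpow_le_rpow h0.le h7 hqr.le) (by positivity) (by positivity)
        calc ∑ j ∈ range N, sv (T - z) (2 * r + j) ^ p.toReal ≤
            ∑ j ∈ range N, c ^ (p.toReal - q.toReal) * sv T j ^ q.toReal := Finset.sum_le_sum h4
          _ = c ^ (p.toReal - q.toReal) * ∑ j ∈ range N, sv T j ^ q.toReal := by
              rw [Finset.mul_sum]
          _ ≤ c ^ (p.toReal - q.toReal) * 1 :=
              mul_le_mul_of_nonneg_left (sum_le_of_S_le hq0 hq hT) (by positivity)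
          _ = r * c ^ p.toReal := by
              rw [mul_one, sub_eq_add_neg, Real.rpow_add hc0, hcq, mul_comm]
      calc ∑ j ∈ range (2 * r), sv (T - z) j ^ p.toReal +
          ∑ j ∈ range N, sv (T - z) (2 * r + j) ^ p.toReal ≤
          2 * 4 ^ p.toReal * (r * c ^ p.toReal) + r * c ^ p.toReal := add_le_add h2 h3
        _ = _ := by ring
    refine hsum.trans (le_of_eq ?_)
    have e1 : (((2 : ℝ) * 4 ^ p.toReal + 1) ^ (1 / p.toReal)) ^ p.toReal = 2 * 4 ^ p.toReal + 1 := by
      rw [← Real.rpow_mul (by positivity), one_div_mul_cancel hpr.ne', Real.rpow_one]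
    rw [Real.mul_rpow (by positivity) (by positivity), e1]
    congr 1
    rw [hqi, hpi, hc, ← Real.rpow_mul hr.le, ← Real.rpow_mul hr.le]
    nth_rewrite 1 [← Real.rpow_one (r : ℝ)]
    rw [← Real.rpow_add hr]
    congr 1
    field_simp
    ring

end Pool.Agent.Q93.KS
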