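import Pool.Agent.Q93.KS.KS5

set_option autoImplicit false
set_option linter.unusedSectionVars false

open Module Finset
open scoped InnerProductSpace ENNReal Topology

namespace Pool.Agent.Q93.KS

variable {𝕜 : Type*} [RCLike 𝕜]

lemma codim {N m : ℕ} (L : Submodule 𝕜 (Op 𝕜 N)) (h : finrank 𝕜 L + m ≤ N ^ 2) :
    m ≤ finrank ℝ (Op 𝕜 N) - finrank ℝ (L.restrictScalars ℝ) := by
  have h1 : finrank ℝ 𝕜 * finrank 𝕜 (Op 𝕜 N) = finrank ℝ (Op 𝕜 N) :=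
    Module.finrank_mul_finrank ℝ 𝕜 (Op 𝕜 N)
  have hfree : Module.Free 𝕜 L := Module.Free.of_divisionRing 𝕜 L
  have h2 : finrank ℝ 𝕜 * finrank 𝕜 L = finrank ℝ L := Module.finrank_mul_finrank ℝ 𝕜 L
  have h3 : finrank ℝ (L.restrictScalars ℝ) = finrank ℝ L := rfl
  have h4 : finrank 𝕜 (Op 𝕜 N) = N ^ 2 := by
    rw [← LinearEquiv.finrank_eq (LinearMap.toContinuousLinearMap :
      (EuclideanSpace 𝕜 (Fin N) →ₗ[𝕜] EuclideanSpace 𝕜 (Fin N)) ≃ₗ[𝕜] _),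
      Module.finrank_linearMap, finrank_euclideanSpace_fin, sq]
  have h5 : 1 ≤ finrank ℝ 𝕜 := Module.finrank_pos
  rw [h3, ← h1, ← h2, h4, ← Nat.mul_sub]
  have h6 : m ≤ N ^ 2 - finrank 𝕜 L := by omega
  exact h6.trans (Nat.le_mul_of_pos_left _ h5)

lemma le_of_cover {p q : ℝ≥0∞} (hq0 : 0 < q) (hqp : q ≤ p) {N m : ℕ} (L : Submodule 𝕜 (Op 𝕜 N))
    (hm : 1 ≤ m) (h : finrank 𝕜 L + m ≤ N ^ 2) {t : ℝ} (ht : 0 < t)
    (hT : ∀ T : Op 𝕜 N, S p T ≤ 1 → ∃ B ∈ L, S q (T - B) < t) (s : Finset (Op 𝕜 N)) {ε K : ℝ}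
    (hε : 0 < ε) (hK : 1 ≤ K) (hs : (s.card : ℝ) ≤ K ^ m)
    (hcov : ∀ T : Op 𝕜 N, S q T ≤ 1 → ∃ z ∈ s, S p (T - z) ≤ ε) : 1 ≤ K * (t * ε) := by
  have hp0 : 0 < p := hq0.trans_le hqp
  have := finiteDim_op (𝕜 := 𝕜) N N
  have h1 := vol (L.restrictScalars ℝ) (P := {T : Op 𝕜 N | S p T ≤ 1})
    (Q := {T : Op 𝕜 N | S q T ≤ 1}) (bdd_ball hp0) (nhds_ball hp0) s hε.le ht.le
    (fun x hx => by
      obtain ⟨z, hz, hz2⟩ := hcov x hx
      refine ⟨z, hz, ε⁻¹ • (x - z), S_inv_smul hε hp0 hz2, ?_⟩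
      rw [smul_smul, mul_inv_cancel₀ hε.ne', one_smul]
      abel)
    (fun x hx => by
      obtain ⟨B, hB, hB2⟩ := hT x hx
      refine ⟨t⁻¹ • (x - B), S_inv_smul ht hq0 hB2.le, ?_⟩
      rw [smul_smul, mul_inv_cancel₀ ht.ne', one_smul, sub_sub_cancel]
      exact hB)
  have hD := codim L h
  set D := finrank ℝ (Op 𝕜 N) - finrank ℝ (L.restrictScalars ℝ)
  have h2 : (s.card : ℝ) ≤ K ^ D := hs.trans (pow_le_pow_right₀ hK hD)
  have h3 : 1 ≤ (K * (t * ε)) ^ D := by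
    rw [mul_pow]
    exact h1.trans (mul_le_mul_of_nonneg_right h2 (by positivity))
  by_contra hcon
  push Not at hcon
  have h4 : (K * (t * ε)) ^ D < 1 := pow_lt_one₀ (by positivity) hcon (by omega)
  linarith

/-- The lower bound. -/
theorem lower (𝕜 : Type*) [RCLike 𝕜] {p q : ℝ≥0∞} (hq0 : 0 < q) (hqp : q ≤ p) :
    ∃ c : ℝ, 0 < c ∧ ∀ (N m : ℕ) (L : Submodule 𝕜 (Op 𝕜 N)), 1 ≤ m → finrank 𝕜 L + m ≤ N ^ 2 →
      ∀ t : ℝ, 0 < t → (∀ T : Op 𝕜 N, S p T ≤ 1 → ∃ B ∈ L, S q (T - B) < t) →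
      c * (max 1 ((m : ℝ) / N)) ^ (q⁻¹.toReal - p⁻¹.toReal) ≤ t := by
  have hσ : 0 ≤ q⁻¹.toReal - p⁻¹.toReal := by
    have : p⁻¹ ≤ q⁻¹ := ENNReal.inv_le_inv.2 hqp
    have := ENNReal.toReal_mono (ENNReal.inv_ne_top.2 hq0.ne') this
    linarith
  set σ := q⁻¹.toReal - p⁻¹.toReal with hσdef
  -- the trivial bound
  have htriv : ∀ (N m : ℕ) (L : Submodule 𝕜 (Op 𝕜 N)), 1 ≤ m → finrank 𝕜 L + m ≤ N ^ 2 →
      ∀ t : ℝ, 0 < t → (∀ T : Op 𝕜 N, S p T ≤ 1 → ∃ B ∈ L, S q (T - B) < t) → 1 ≤ t := by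
    intro N m L hm h t ht hT
    have := le_of_cover hq0 hqp L hm h ht hT {0} one_pos le_rfl (by simp) (fun T hT' =>
      ⟨0, by simp, by simpa using ball_mono hq0 hqp hT'⟩)
    linarith
  by_cases hq : q = ∞
  · have hp : p = ∞ := top_le_iff.1 (hq ▸ hqp)
    refine ⟨1, one_pos, fun N m L hm h t ht hT => ?_⟩
    have h1 : σ = 0 := by rw [hσdef, hp, hq]; simp
    rw [h1, Real.rpow_zero, one_mul]
    exact htriv N m L hm h t ht hT
  obtain ⟨a, ha⟩ := exists_nat_ge (1 / q.toReal + 1)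
  have hqr : 0 < q.toReal := ENNReal.toReal_pos hq0.ne' hq
  have ha1 : (1 : ℝ) ≤ a := by
    have : 0 < 1 / q.toReal := one_div_pos.2 hqr
    linarith
  have ha1' : 1 ≤ a := by exact_mod_cast ha1
  obtain ⟨C, hC, hcov⟩ := entropy (𝕜 := 𝕜) hq0 hq hqp ha
  have hC0 : 0 < C := by linarith
  have h16 : (0 : ℝ) < 16 * a := by linarith
  refine ⟨(5 * C)⁻¹ * (16 * a : ℝ) ^ (-σ), by positivity, fun N m L hm h t ht hT => ?_⟩
  have ht1 := htriv N m L hm h t ht hT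
  have hN : 1 ≤ N := by
    rcases Nat.eq_zero_or_pos N with h0 | h0
    · have h00 : N ^ 2 = 0 := by rw [h0]; rfl
      omega
    · exact h0
  have hN0 : (0 : ℝ) < N := by exact_mod_cast hN
  by_cases hsmall : m < 8 * a * N
  · have h1 : max 1 ((m : ℝ) / N) ≤ 16 * a := by
      refine max_le (by linarith) ?_
      rw [div_le_iff₀ hN0]
      have h2 : (m : ℝ) < 8 * a * N := by exact_mod_cast hsmall
      have h3 : (0 : ℝ) < a * N := by positivity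
      linarith
    have h2 : (max 1 ((m : ℝ) / N)) ^ σ ≤ (16 * a : ℝ) ^ σ :=
      Real.rpow_le_rpow (by positivity) h1 hσ
    calc (5 * C)⁻¹ * (16 * a : ℝ) ^ (-σ) * (max 1 ((m : ℝ) / N)) ^ σ ≤
        (5 * C)⁻¹ * (16 * a : ℝ) ^ (-σ) * (16 * a : ℝ) ^ σ :=
          mul_le_mul_of_nonneg_left h2 (by positivity)
      _ = (5 * C)⁻¹ := by
          rw [mul_assoc, ← Real.rpow_add h16, neg_add_cancel, Real.rpow_zero, mul_one]
      _ ≤ 1 := inv_le_one_of_one_le₀ (by linarith)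
      _ ≤ t := ht1
  · push Not at hsmall
    set k := m / (8 * a * N) with hk
    have h8 : 0 < 8 * a * N := by positivity
    have hk1 : 1 ≤ k := (Nat.one_le_div_iff h8).2 hsmall
    set l := Nat.log 2 k with hl
    have hl1 : 2 ^ l ≤ k := Nat.pow_log_le_self 2 (by omega)
    have hl2 : k < 2 ^ (l + 1) := Nat.lt_pow_succ_log_self (by norm_num) k
    have hm1 : 8 * a * N * 2 ^ l ≤ m :=
      (Nat.mul_le_mul_left _ hl1).trans (Nat.mul_div_le m _)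
    have hm2 : m < 16 * a * N * 2 ^ l := by
      have h3 : m < 8 * a * N * (k + 1) := Nat.lt_mul_div_succ m h8
      have h4 : 8 * a * N * (k + 1) ≤ 8 * a * N * 2 ^ (l + 1) := Nat.mul_le_mul_left _ hl2
      calc m < 8 * a * N * 2 ^ (l + 1) := h3.trans_le h4
        _ = 16 * a * N * 2 ^ l := by rw [pow_succ]; ring
    obtain ⟨s, hs1, hs2⟩ := hcov N l
    have h5 := le_of_cover hq0 hqp L hm h ht hT s (ε := C * ((2 : ℝ) ^ l) ^ (-σ)) (K := 5)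
      (by positivity) (by norm_num) (by
        have : s.card ≤ 5 ^ m := hs1.trans (Nat.pow_le_pow_right (by norm_num) hm1)
        exact_mod_cast this) hs2
    have h6 : (5 * C)⁻¹ * ((2 : ℝ) ^ l) ^ σ ≤ t := by
      rw [inv_mul_le_iff₀ (by positivity)]
      have h7 : (0 : ℝ) < ((2 : ℝ) ^ l) ^ σ := by positivity
      have h8 : ((2 : ℝ) ^ l) ^ (-σ) * ((2 : ℝ) ^ l) ^ σ = 1 := by
        rw [← Real.rpow_add (by positivity), neg_add_cancel, Real.rpow_zero]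
      calc ((2 : ℝ) ^ l) ^ σ ≤ (5 * (t * (C * ((2 : ℝ) ^ l) ^ (-σ)))) * ((2 : ℝ) ^ l) ^ σ :=
            le_mul_of_one_le_left h7.le h5
        _ = 5 * C * t * (((2 : ℝ) ^ l) ^ (-σ) * ((2 : ℝ) ^ l) ^ σ) := by ring
        _ = 5 * C * t := by rw [h8, mul_one]
    have h9 : max 1 ((m : ℝ) / N) ≤ (16 * a) * (2 : ℝ) ^ l := by
      refine max_le ?_ ?_
      · have : (1 : ℝ) ≤ 2 ^ l := one_le_pow₀ (by norm_num)
        nlinarith
      · rw [div_le_iff₀ hN0]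
        have : (m : ℝ) < 16 * a * N * 2 ^ l := by exact_mod_cast hm2
        linarith
    have h10 : (max 1 ((m : ℝ) / N)) ^ σ ≤ (16 * a : ℝ) ^ σ * ((2 : ℝ) ^ l) ^ σ := by
      rw [← Real.mul_rpow (by positivity) (by positivity)]
      exact Real.rpow_le_rpow (by positivity) h9 hσ
    calc (5 * C)⁻¹ * (16 * a : ℝ) ^ (-σ) * (max 1 ((m : ℝ) / N)) ^ σ ≤
        (5 * C)⁻¹ * (16 * a : ℝ) ^ (-σ) * ((16 * a : ℝ) ^ σ * ((2 : ℝ) ^ l) ^ σ) :=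
          mul_le_mul_of_nonneg_left h10 (by positivity)
      _ = (5 * C)⁻¹ * ((2 : ℝ) ^ l) ^ σ * ((16 * a : ℝ) ^ (-σ) * (16 * a : ℝ) ^ σ) := by ring
      _ = (5 * C)⁻¹ * ((2 : ℝ) ^ l) ^ σ := by
          rw [← Real.rpow_add h16, neg_add_cancel, Real.rpow_zero, mul_one]
      _ ≤ t := h6

end Pool.Agent.Q93.KS
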